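import Pool.Agent.H451R5.AIStmts

/-! Task KE of project H451-KS -/

set_option autoImplicit false

open Filter Topology

namespace Pool.Agent.H174R3.KS

theorem tendsto_root (B C : ℝ) (x : ℕ → ℝ) (hB : 1 ≤ B) (hC : 0 < C)
    (h : ∀ n : ℕ, B ^ n ≤ x n ∧ x n ≤ C * B ^ n) :
    Tendsto (fun n : ℕ => (x n ^ ((n : ℝ)⁻¹) : ℝ)) atTop (𝓝 B) := by
  have hB0 : 0 < B := by linarith
  have hinv : Tendsto (fun n : ℕ => ((n : ℝ)⁻¹ : ℝ)) atTop (𝓝 0) :=
    tendsto_inv_atTop_zero.comp tendsto_natCast_atTop_atTop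
  have hCt : Tendsto (fun n : ℕ => C ^ ((n : ℝ)⁻¹)) atTop (𝓝 1) := by
    have := (Real.continuousAt_const_rpow (a := C) (b := 0) hC.ne').tendsto.comp hinv
    rw [Real.rpow_zero] at this
    exact this
  have hup : Tendsto (fun n : ℕ => C ^ ((n : ℝ)⁻¹) * B) atTop (𝓝 B) := by
    have := hCt.mul_const B
    simpa using this
  have key : ∀ n : ℕ, 1 ≤ n → (B ^ n : ℝ) ^ ((n : ℝ)⁻¹) = B := by
    intro n hn
    rw [← Real.rpow_natCast, ← Real.rpow_mul hB0.le, mul_inv_cancel₀ (by positivity), Real.rpow_one]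
  refine tendsto_of_tendsto_of_tendsto_of_le_of_le' tendsto_const_nhds hup ?_ ?_
  · filter_upwards [eventually_ge_atTop 1] with n hn
    have h1 := Real.rpow_le_rpow (by positivity) (h n).1 (show (0 : ℝ) ≤ (n : ℝ)⁻¹ by positivity)
    rwa [key n hn] at h1
  · filter_upwards [eventually_ge_atTop 1] with n hn
    have h0 : 0 ≤ x n := le_trans (by positivity) (h n).1
    have h1 := Real.rpow_le_rpow h0 (h n).2 (show (0 : ℝ) ≤ (n : ℝ)⁻¹ by positivity)
    rwa [Real.mul_rpow hC.le (by positivity), key n hn] at h1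

theorem taskKE : Pool.Agent.H451R5.AI.TaskKE := by
  intro B C x hB hC h
  have h1 := tendsto_root B C x hB hC h
  have h2 : Tendsto (fun n : ℕ => ((x n ^ ((n : ℝ)⁻¹) : ℝ) : EReal)) atTop (𝓝 (B : EReal)) :=
    (continuous_coe_real_ereal.tendsto B).comp h1
  exact h2.limsup_eq

end Pool.Agent.H174R3.KS
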